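import Pool.Agent.Work.MP_1233f5_ag.Bdx.B01

/-! MP_1233f5_ag, base block V: the items.  Paper proof: note 1479 and the specs of the items. -/

set_option autoImplicit false
open scoped TensorProduct

namespace Pool.Agent.Work.MP_1233f5_ag.V

open Finset

/-! ### Representations of `Perm α` -/

section rep
variable {K : Type} [Field K] {α : Type} {V : Type} [AddCommGroup V] [Module K V]

/-- `z` is invariant under the permutations preserving the fibres of `π`. -/
def Inv {ι : Type} (ρ : Equiv.Perm α →* Module.End K V) (π : α → ι) (z : V) : Prop :=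
  ∀ σ : Equiv.Perm α, (∀ a, π (σ a) = π a) → ρ σ z = z

/-- `z` is antisymmetric under the permutations moving only points of `Q`. -/
def Anti [Fintype α] [DecidableEq α] (ρ : Equiv.Perm α →* Module.End K V) (Q : Finset α) (z : V) : Prop :=
  ∀ σ : Equiv.Perm α, (∀ a, a ∉ Q → σ a = a) → ρ σ z = ((Equiv.Perm.sign σ : ℤ) : K) • z

end rep

/-- Garnir element of an invariant vector is invariant under a coarser-to-the-left partition. -/
def S_RepGar : Prop :=
  ∀ (K : Type) [Field K] [CharZero K] (α : Type) [Fintype α] [DecidableEq α] (V : Type)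
    [AddCommGroup V] [Module K V] (ρ : Equiv.Perm α →* Module.End K V) (r : ℕ) (π : α → Fin r)
    (z : V) (q : α) (i : Fin r), Inv ρ π z → π q ≠ i →
    Inv ρ (Function.update π q i) (z + ∑ a ∈ univ.filter (fun a => π a = i), ρ (Equiv.swap a q) z)

/-- Descending through the antisymmetrizers. -/
def S_RepDesc : Prop :=
  ∀ (K : Type) [Field K] [CharZero K] (α : Type) [Fintype α] [DecidableEq α] (V : Type)
    [AddCommGroup V] [Module K V] (ρ : Equiv.Perm α →* Module.End K V) (B : Submodule K V)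
    (_ : ∀ σ, ∀ z ∈ B, ρ σ z ∈ B) (z : V) (n : ℕ) (q : Fin (n + 1) → α)
    (blk : Fin (n + 1) → Finset α) (_ : ∀ i j, i ≠ j → Disjoint (blk i) (blk j))
    (_ : ∀ i, q i ∈ blk i) (_ : ∀ i, ∀ a ∈ blk i, ρ (Equiv.swap (q i) a) z = z)
    (_ : ∀ i j, i < j → z + ∑ a ∈ blk i, ρ (Equiv.swap a (q j)) z ∈ B)
    (_ : (∑ σ ∈ univ.filter (fun σ : Equiv.Perm α => ∀ a, (∀ i, q i ≠ a) → σ a = a),
      ((Equiv.Perm.sign σ : ℤ) : K) • ρ σ z) ∈ B), z ∈ B

/-- The generation theorem for `Perm α`. -/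
def S_Rep : Prop :=
  ∀ (K : Type) [Field K] [CharZero K] (α : Type) [Fintype α] [DecidableEq α] (V : Type)
    [AddCommGroup V] [Module K V] (ρ : Equiv.Perm α →* Module.End K V) (Z B : Submodule K V)
    (_ : ∀ σ, ∀ z ∈ Z, ρ σ z ∈ Z) (_ : ∀ σ, ∀ z ∈ B, ρ σ z ∈ B) (n : ℕ)
    (_ : ∀ π : α → Fin n, ∀ z ∈ Z, Inv ρ π z → z ∈ B)
    (_ : ∀ Q : Finset α, Q.card = n + 1 → ∀ z ∈ Z, Anti ρ Q z → z ∈ B), Z ≤ B

/-! ### Matching complexes -/

/-- all points of `Q` covered. -/
def S_F : Prop :=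
  ∀ (K : Type) [Field K] [CharZero K] (α : Type) [Fintype α] [DecidableEq α] (d m p s : ℕ)
    (P Q : Finset α), 1 ≤ d → Q ⊆ P → Q.card = m → P.card = m * d + s →
    (∀ P' : Finset α, P'.card = s → rVan K univ (vm d P') p) →
    rVan K univ (vF d P Q) (p + m)

/-- at most one point of `Q` uncovered. -/
def S_G : Prop :=
  ∀ (K : Type) [Field K] [CharZero K] (α : Type) [Fintype α] [DecidableEq α] (d m p s : ℕ)
    (P Q : Finset α), 1 ≤ d → Q ⊆ P → Q.card = m + 1 → P.card = m * d + 1 + s →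
    (∀ P' : Finset α, P'.card = s → rVan K univ (vm d P') p) →
    (∀ p' s' : ℕ, p = p' + 1 → P.card = (m + 1) * d + s' →
      ∀ P' : Finset α, P'.card = s' → rVan K univ (vm d P') p') →
    rVan K univ (vG d P Q) (p + m)

/-- antisymmetric cycles are boundaries. -/
def S_A : Prop :=
  ∀ (K : Type) [Field K] [CharZero K] (α : Type) [Fintype α] [DecidableEq α] (d p : ℕ)
    (Q : Finset α), rVan K univ (vG d univ Q) p →
    ∀ c : (Fin p → Finset α) → K, rCh (vm d univ) p c → rcyc univ (vm d univ) p c →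
    (∀ σ : Equiv.Perm α, (∀ a, a ∉ Q → σ a = a) → ∀ t : Fin p → Finset α,
      c (fun i => (t i).map σ.toEmbedding) = ((Equiv.Perm.sign σ : ℤ) : K) * c t) →
    ∃ g : (Fin (p + 1) → Finset α) → K, rCh (vm d univ) (p + 1) g ∧
      ∀ t, vm d univ p t → dd univ g t = c t

/-- relabelling. -/
def S_Tr : Prop :=
  ∀ (K : Type) [Field K] (α β : Type) [Fintype α] [DecidableEq α] [Fintype β] [DecidableEq β]
    (d p : ℕ) (P : Finset α) (P' : Finset β), P.card = P'.card →
    rVan K univ (vm d P) p → rVan K univ (vm d P') p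

/-! ### Transfer between multilinear and multigraded strands -/

/-- the type of a set. -/
def tyv {α : Type} {n : ℕ} (π : α → Fin n) (e : Finset α) : Fin n → ℕ :=
  fun j => (e.filter (fun x => π x = j)).card

/-- the fibre sizes. -/
def fib {α : Type} [Fintype α] {n : ℕ} (π : α → Fin n) : Fin n → ℕ := tyv π univ

/-- normalizing factor. -/
def mu {n : ℕ} (w : Fin n → ℕ) {p : ℕ} (s : Fin p → (Fin n → ℕ)) : ℕ :=
  (∏ j, (w j - ∑ i, s i j).factorial) * ∏ i, ∏ j, (s i j).factorial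

open Classical in
/-- pull back of a multigraded chain. -/
noncomputable def pb {K : Type} [Field K] {α : Type} [Fintype α] {n : ℕ} (d : ℕ) (π : α → Fin n)
    {p : ℕ} (c : (Fin p → (Fin n → ℕ)) → K) : (Fin p → Finset α) → K := fun t =>
  if vm d univ p t then (mu (fib π) (fun i => tyv π (t i)) : K) * c (fun i => tyv π (t i)) else 0

/-- invariance of a function on tuples of sets under the fibre-preserving permutations. -/
def InvF {K : Type} {α : Type} {n : ℕ} (π : α → Fin n) {p : ℕ} (C : (Fin p → Finset α) → K) :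
    Prop :=
  ∀ σ : Equiv.Perm α, (∀ a, π (σ a) = π a) →
    ∀ t : Fin p → Finset α, C (fun i => (t i).map σ.toEmbedding) = C t

/-- counting the edges of given type disjoint from a matching. -/
def S_Cnt : Prop :=
  ∀ (α : Type) [Fintype α] [DecidableEq α] (n d p : ℕ) (π : α → Fin n) (t : Fin p → Finset α)
    (v : Fin n → ℕ), vm d univ p t → v ∈ Mo n d →
    ∀ E : Finset (Finset α),
      (∀ e, e ∈ E ↔ (vm d univ (p + 1) (Fin.cons e t : Fin (p + 1) → Finset α) ∧ tyv π e = v)) →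
      E.card = ∏ j, (fib π j - ∑ i, tyv π (t i) j).choose (v j)

/-- every multigraded tuple lifts to a matching. -/
def S_LiftT : Prop :=
  ∀ (α : Type) [Fintype α] [DecidableEq α] (n d p : ℕ) (π : α → Fin n)
    (s : Fin p → (Fin n → ℕ)), vw d (fib π) p s →
    ∃ t : Fin p → Finset α, vm d univ p t ∧ ∀ i, tyv π (t i) = s i

/-- the types of a matching form a multigraded tuple. -/
def S_TyW : Prop :=
  ∀ (α : Type) [Fintype α] [DecidableEq α] (n d p : ℕ) (π : α → Fin n) (t : Fin p → Finset α),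
    vm d univ p t → vw d (fib π) p (fun i => tyv π (t i))

/-- the fibre-preserving permutations act transitively on matchings of given types. -/
def S_TransT : Prop :=
  ∀ (α : Type) [Fintype α] [DecidableEq α] (n d p : ℕ) (π : α → Fin n)
    (t t' : Fin p → Finset α), vm d univ p t → vm d univ p t' →
    (∀ i, tyv π (t i) = tyv π (t' i)) →
    ∃ σ : Equiv.Perm α, (∀ a, π (σ a) = π a) ∧ ∀ i, (t i).map σ.toEmbedding = t' i

/-- `pb` commutes with the differentials. -/
def S_PbD : Prop :=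
  ∀ (K : Type) [Field K] [CharZero K] (α : Type) [Fintype α] [DecidableEq α] (n d p : ℕ)
    (π : α → Fin n) (c : (Fin (p + 1) → (Fin n → ℕ)) → K), rCh (vw d (fib π)) (p + 1) c →
    ∀ t, vm d univ p t → dd univ (pb d π c) t =
      (mu (fib π) (fun i => tyv π (t i)) : K) * dd (Mo n d) c (fun i => tyv π (t i))

/-- `pb` of a chain is an invariant chain. -/
def S_PbCh : Prop :=
  ∀ (K : Type) [Field K] [CharZero K] (α : Type) [Fintype α] [DecidableEq α] (n d p : ℕ)
    (π : α → Fin n) (c : (Fin p → (Fin n → ℕ)) → K), rCh (vw d (fib π)) p c →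
    rCh (vm d univ) p (pb d π c) ∧ InvF π (pb d π c)

/-- every invariant chain is a pull back. -/
def S_PbSurj : Prop :=
  ∀ (K : Type) [Field K] [CharZero K] (α : Type) [Fintype α] [DecidableEq α] (n d p : ℕ)
    (π : α → Fin n) (C : (Fin p → Finset α) → K), rCh (vm d univ) p C → InvF π C →
    ∃ c : (Fin p → (Fin n → ℕ)) → K, rCh (vw d (fib π)) p c ∧ ∀ t, pb d π c t = C t

/-- invariant cycles are boundaries. -/
def S_TransA : Prop :=
  ∀ (K : Type) [Field K] [CharZero K] (α : Type) [Fintype α] [DecidableEq α] (n d p : ℕ)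
    (π : α → Fin n), rVan K (Mo n d) (vw d (fib π)) p →
    ∀ C : (Fin p → Finset α) → K, rCh (vm d univ) p C → rcyc univ (vm d univ) p C → InvF π C →
    ∃ g : (Fin (p + 1) → Finset α) → K, rCh (vm d univ) (p + 1) g ∧
      ∀ t, vm d univ p t → dd univ g t = C t

/-- from the multilinear to the multigraded vanishing. -/
def S_TransB : Prop :=
  ∀ (K : Type) [Field K] [CharZero K] (α : Type) [Fintype α] [DecidableEq α] (n d p : ℕ)
    (π : α → Fin n), rVan K univ (vm d (univ : Finset α)) p → rVan K (Mo n d) (vw d (fib π)) p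

/-! ### Vanishing in few variables -/

/-- the number of monomials. -/
def S_CardMo : Prop := ∀ n d : ℕ, 1 ≤ n → (Mo n d).card = (d + n - 1).choose (n - 1)

/-- from the quotient by one more power back. -/
def S_RS : Prop :=
  ∀ (K : Type) [Field K] [CharZero K] (n d p : ℕ) (w : Fin n → ℕ) (J : Finset (Fin n))
    (i : Fin n), 1 ≤ d → i ∉ J → rVan K (Mo n d) (vJ d w (insert i J)) p →
    rVan K (Mo n d) (vJ d w J) p

/-- passing to the quotient by one more power. -/
def S_Lift : Prop :=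
  ∀ (K : Type) [Field K] [CharZero K] (n d p : ℕ) (w : Fin n → ℕ) (J : Finset (Fin n))
    (i : Fin n), 1 ≤ d → i ∉ J → rNo K (Mo n d) (vJ d w J) p →
    rNo K (Mo n d) (vJ d w (insert i J)) p

/-- complementary weights. -/
def S_Dual : Prop :=
  ∀ (K : Type) [Field K] [CharZero K] (n d p j : ℕ) (w w' : Fin n → ℕ), 1 ≤ n → 1 ≤ d →
    p + j + n = (Mo n d).card →
    (∀ a, w a + w' a = (∑ v ∈ (Mo n d).filter (fun v => ∀ i, v ≠ Pi.single i d), v a) + (d - 1)) →
    rNo K (Mo n d) (vJ d w' univ) j → rVan K (Mo n d) (vJ d w univ) p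

/-- Green's vanishing of the rows of cycles. -/
def S_Green : Prop :=
  ∀ (K : Type) [Field K] [CharZero K] (n d j T : ℕ) (w : Fin n → ℕ), 1 ≤ n →
    ∑ a, w a = j * d + T → (Mo n T).card ≤ j → rNo K (Mo n d) (vw d w) j

/-- exactness in `n` variables. -/
def S_LemD : Prop :=
  ∀ (K : Type) [Field K] [CharZero K] (n d p T T' : ℕ) (w : Fin n → ℕ), 1 ≤ n → 2 ≤ d →
    ∑ a, w a = p * d + T → T + T' = n * (d - 1) →
    p + n + (T' + n - 1).choose (n - 1) ≤ (d + n - 1).choose (n - 1) →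
    rVan K (Mo n d) (vw d w) p

/-! ### The induction -/

/-- one step: `n` variables are controlled by `S_LemD`, the parts antisymmetric in `n + 1` points
by the vanishing at `(T, p - n - 1)` and `(T - 1, p - n)`. -/
def S_Step : Prop :=
  ∀ (K : Type) [Field K] [CharZero K] (d T p n T' : ℕ), 2 ≤ d → 1 ≤ n → 1 ≤ T →
    T + T' = n * (d - 1) →
    p + n + (T' + n - 1).choose (n - 1) ≤ (d + n - 1).choose (n - 1) →
    (∀ p', p' + (n + 1) = p → ML K d T p') →
    (∀ p', p' + n = p → ML K d (T - 1) p') →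
    ML K d T p

/-- the value on `n = T / (d - 1) + 1` variables. -/
def theta (d T : ℕ) : ℕ :=
  (d + T / (d - 1)).choose (T / (d - 1)) -
    ((T / (d - 1) + 1) * (d - 1) - T + T / (d - 1)).choose (T / (d - 1)) - T / (d - 1)

/-- the bound. -/
def bnd (d : ℕ) : ℕ → ℕ
  | 0 => 0
  | T + 1 => min (theta d (T + 1)) (bnd d T + (T + 1) / (d - 1) + 1)

/-- the multilinear vanishing theorem. -/
def S_Main : Prop :=
  ∀ (K : Type) [Field K] [CharZero K] (d T p : ℕ), 2 ≤ d → p < bnd d T → ML K d T p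

/-! ### The bridge to the Koszul complex of the frozen statement -/

/-- `S^d ℂ^n`. -/
abbrev Sd (n d : ℕ) := ↥(MvPolynomial.homogeneousSubmodule (Fin n) ℂ d)

/-- `Λ(S^d ℂ^n) ⊗ S(ℂ^n)`. -/
abbrev LS (n d : ℕ) := ExteriorAlgebra ℂ (Sd n d) ⊗[ℂ] MvPolynomial (Fin n) ℂ

/-- a multi-index as a finitely supported function. -/
noncomputable def toF {n : ℕ} (v : Fin n → ℕ) : Fin n →₀ ℕ := Finsupp.equivFunOnFinite.symm v

/-- the coordinate functional on `S^d`. -/
noncomputable def co {n : ℕ} (d : ℕ) (α : Fin n →₀ ℕ) : Sd n d →ₗ[ℂ] ℂ :=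
  (MvPolynomial.lcoeff (R := ℂ) α : MvPolynomial (Fin n) ℂ →ₗ[ℂ] ℂ).comp
    (MvPolynomial.homogeneousSubmodule (Fin n) ℂ d).subtype

/-- the Koszul differential as in the frozen statement. -/
noncomputable def DK (n d : ℕ) : LS n d →ₗ[ℂ] LS n d :=
  ∑ᶠ α : Fin n →₀ ℕ, TensorProduct.map
    (CliffordAlgebra.contractLeft (Q := (0 : QuadraticForm ℂ (Sd n d))) (co d α))
    (LinearMap.mulLeft ℂ (MvPolynomial.monomial α (1 : ℂ) : MvPolynomial (Fin n) ℂ))

/-- `Λ^p ⊗ S^T` as in the frozen statement. -/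
noncomputable def piece (n d p T : ℕ) : Submodule ℂ (LS n d) :=
  LinearMap.range (TensorProduct.map
    ((LinearMap.range (ExteriorAlgebra.ι ℂ : Sd n d →ₗ[ℂ] ExteriorAlgebra ℂ (Sd n d))) ^ p).subtype
    (MvPolynomial.homogeneousSubmodule (Fin n) ℂ T).subtype)

/-- iterated contraction, first entry first. -/
noncomputable def lam (n d : ℕ) : (p : ℕ) → (Fin p → (Fin n → ℕ)) →
    (ExteriorAlgebra ℂ (Sd n d) →ₗ[ℂ] ℂ)
  | 0, _ => (ExteriorAlgebra.algebraMapInv (R := ℂ) (M := Sd n d)).toLinearMap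
  | p + 1, t => (lam n d p (Fin.tail t)).comp
      (CliffordAlgebra.contractLeft (Q := (0 : QuadraticForm ℂ (Sd n d))) (co d (toF (t 0))))

/-- the coefficients of an element of `Λ ⊗ S`. -/
noncomputable def Co (n d p : ℕ) (t : Fin p → (Fin n → ℕ)) (a : Fin n → ℕ) : LS n d →ₗ[ℂ] ℂ :=
  (TensorProduct.lid ℂ ℂ).toLinearMap.comp
    (TensorProduct.map (lam n d p t) (MvPolynomial.lcoeff (R := ℂ) (toF a)))

open Classical in
/-- the monomial as an element of `S^d` (zero if the degree is not `d`). -/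
noncomputable def mono (n d : ℕ) (v : Fin n → ℕ) : Sd n d :=
  if h : (MvPolynomial.monomial (toF v) (1 : ℂ)) ∈ MvPolynomial.homogeneousSubmodule (Fin n) ℂ d
  then ⟨_, h⟩ else 0

/-- the basic elements `e_{t_0} ∧ ... ∧ e_{t_{p-1}} ⊗ x ^ a`. -/
noncomputable def bas (n d p : ℕ) (t : Fin p → (Fin n → ℕ)) (a : Fin n → ℕ) : LS n d :=
  (ExteriorAlgebra.ιMulti ℂ p (fun i => mono n d (t i))) ⊗ₜ[ℂ]
    (MvPolynomial.monomial (toF a) (1 : ℂ))

/-- the differential is a finite sum. -/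
def S_BrSum : Prop :=
  ∀ n d : ℕ, DK n d = ∑ v ∈ Mo n d, TensorProduct.map
    (CliffordAlgebra.contractLeft (Q := (0 : QuadraticForm ℂ (Sd n d))) (co d (toF v)))
    (LinearMap.mulLeft ℂ (MvPolynomial.monomial (toF v) (1 : ℂ) : MvPolynomial (Fin n) ℂ))

/-- coefficients of the differential. -/
def S_BrD : Prop :=
  ∀ (n d p : ℕ) (t : Fin p → (Fin n → ℕ)) (a : Fin n → ℕ) (x : LS n d),
    Co n d p t a (DK n d x) =
      ∑ v ∈ Mo n d, if (∀ j, v j ≤ a j) then Co n d (p + 1) (Fin.cons v t) (a - v) x else 0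

/-- the coefficients are alternating. -/
def S_BrAlt : Prop :=
  ∀ (n d p : ℕ) (a : Fin n → ℕ) (x : LS n d), Alt p (fun t => Co n d p t a x)

/-- coefficients of the basic elements. -/
def S_BrVal : Prop :=
  ∀ (n d p : ℕ) (s t : Fin p → (Fin n → ℕ)) (a b : Fin n → ℕ), (∀ i, s i ∈ Mo n d) →
    (∀ i, t i ∈ Mo n d) → Co n d p s a (bas n d p t b) =
      if a = b then ∑ σ : Equiv.Perm (Fin p), if t = s ∘ σ then ((Equiv.Perm.sign σ : ℤ) : ℂ)
        else 0 else 0

/-- reproducing formula. -/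
def S_BrRep : Prop :=
  ∀ (n d p T : ℕ), ∀ x ∈ piece n d p T,
    x = ((p.factorial : ℂ)⁻¹) • ∑ t ∈ Fintype.piFinset (fun _ : Fin p => Mo n d),
      ∑ a ∈ Mo n T, Co n d p t a x • bas n d p t a

/-- degrees. -/
def S_BrDeg : Prop :=
  ∀ (n d p T : ℕ), (∀ t : Fin p → (Fin n → ℕ), ∀ a ∈ Mo n T, bas n d p t a ∈ piece n d p T) ∧
    (∀ x ∈ piece n d (p + 1) T, DK n d x ∈ piece n d p (T + d))

/-- the vanishing in the form of the frozen statement. -/
def KV (n d p T : ℕ) : Prop := ∀ x ∈ piece n d p T, DK n d x = 0 → x ∈ LinearMap.range (DK n d)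

/-- the bridge. -/
def S_Bridge : Prop :=
  ∀ (n d p T : ℕ), (∀ w : Fin n → ℕ, ∑ a, w a = p * d + T → rVan ℂ (Mo n d) (vw d w) p) →
    KV n d p T

end Pool.Agent.Work.MP_1233f5_ag.V
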