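import Pool.Agent.Work.MP_1233f5_ag.V.Stmts

set_option autoImplicit false

namespace Pool.Agent.Work.MP_1233f5_ag.V

open Finset

namespace Dual

section eps
variable {K : Type} [Field K] {B X : Type} [Fintype X] [DecidableEq X]

open Classical in
/-- sign of the enumeration `u` with respect to the enumeration `m`. -/
noncomputable def eps (K : Type) [Field K] (m u : X → B) : K :=
  if h : ∃ σ : Equiv.Perm X, u = m ∘ σ then ((Equiv.Perm.sign h.choose : ℤ) : K) else 0

lemma eps_apply {m : X → B} (hm : Function.Injective m) (σ : Equiv.Perm X) :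
    eps K m (m ∘ σ) = ((Equiv.Perm.sign σ : ℤ) : K) := by
  have h : ∃ τ : Equiv.Perm X, m ∘ σ = m ∘ τ := ⟨σ, rfl⟩
  rw [eps, dif_pos h]
  have h2 := h.choose_spec
  have h3 : σ = h.choose := by
    ext x
    exact hm (congrFun h2 x)
  rw [← h3]

lemma eps_ne {m u : X → B} (h : eps K m u ≠ 0) : ∃ σ : Equiv.Perm X, u = m ∘ σ := by
  by_contra hc
  exact h (by rw [eps, dif_neg hc])

lemma eps_comp {m : X → B} (hm : Function.Injective m) (u : X → B) (τ : Equiv.Perm X) :
    eps K m (u ∘ τ) = ((Equiv.Perm.sign τ : ℤ) : K) * eps K m u := by
  by_cases h : ∃ σ : Equiv.Perm X, u = m ∘ σ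
  · obtain ⟨σ, rfl⟩ := h
    have : (m ∘ σ) ∘ τ = m ∘ (σ * τ : Equiv.Perm X) := by
      funext x; rfl
    rw [this, eps_apply hm, eps_apply hm]
    simp [Equiv.Perm.sign_mul, mul_comm]
  · have h2 : ¬ ∃ σ : Equiv.Perm X, u ∘ τ = m ∘ σ := by
      rintro ⟨σ, hσ⟩
      apply h
      refine ⟨σ * τ⁻¹, ?_⟩
      funext x
      have := congrFun hσ (τ⁻¹ x)
      simpa using this
    rw [eps, dif_neg h2, eps, dif_neg h, mul_zero]

lemma exists_perm {M' : Finset B} {m u : X → B} (hm : Function.Injective m)
    (hM : ∀ b ∈ M', ∃ x, m x = b) (hu : Function.Injective u) (huM : ∀ x, u x ∈ M') :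
    ∃ σ : Equiv.Perm X, u = m ∘ σ := by
  choose g hg using fun x => hM (u x) (huM x)
  have hinj : Function.Injective g := by
    intro x y hxy
    apply hu
    rw [← hg x, ← hg y, hxy]
  refine ⟨Equiv.ofBijective g (Finite.injective_iff_bijective.1 hinj), ?_⟩
  funext x
  simp [hg]

end eps

/-- the shift of the middle element. -/
def shf (p j : ℕ) : Fin (p + 1) ⊕ Fin j ≃ Fin p ⊕ Fin (j + 1) where
  toFun := Sum.elim (Fin.cons (Sum.inr 0) Sum.inl) (fun i => Sum.inr i.succ)
  invFun := Sum.elim (fun i => Sum.inl i.succ) (Fin.cons (Sum.inl 0) Sum.inr)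
  left_inv := by
    rintro (i | i)
    · refine Fin.cases ?_ (fun i => ?_) i <;> simp
    · simp
  right_inv := by
    rintro (i | i)
    · simp
    · refine Fin.cases ?_ (fun i => ?_) i <;> simp

lemma elim_shf {B : Type} {p j : ℕ} (b : B) (t : Fin p → B) (s : Fin j → B) :
    (Sum.elim (Fin.cons b t : Fin (p + 1) → B) s) ∘ (shf p j).symm =
      Sum.elim t (Fin.cons b s : Fin (j + 1) → B) := by
  funext x
  rcases x with i | i
  · simp [shf]
  · refine Fin.cases ?_ (fun i => ?_) i <;> simp [shf]

theorem abstract {K : Type} [Field K] [CharZero K] {B : Type} [DecidableEq B]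
    (M M' : Finset B) (G G' : Pred B) (p j : ℕ)
    (hcard : M'.card = p + j)
    (hG : ∀ t, G p t → ∀ i, t i ∈ M')
    (hperm : ∀ (σ : Equiv.Perm (Fin p)) t, G p t → G p (t ∘ σ))
    (h1 : ∀ (t : Fin p → B) (s : Fin j → B), Function.Injective (Sum.elim t s) →
      (∀ x, Sum.elim t s x ∈ M') → G p t → G' j s)
    (h2 : ∀ j', j = j' + 1 → ∀ (u : Fin (p + 1) → B) (s : Fin j' → B),
      Function.Injective (Sum.elim u s) → (∀ x, Sum.elim u s x ∈ M') → G' j' s → G (p + 1) u)
    (hno : rNo K M G' j) : rVan K M G p := by
  classical
  -- the enumeration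
  have hX : Fintype.card (Fin p ⊕ Fin j) = Fintype.card M' := by
    simp [hcard]
  let em : Fin p ⊕ Fin j ≃ M' := Fintype.equivOfCardEq hX
  let m : Fin p ⊕ Fin j → B := fun x => (em x).1
  have hm : Function.Injective m := fun x y h => em.injective (Subtype.ext h)
  have hmM : ∀ x, m x ∈ M' := fun x => (em x).2
  have hMm : ∀ b ∈ M', ∃ x, m x = b := fun b hb => ⟨em.symm ⟨b, hb⟩, by simp [m]⟩
  have hpermiff : ∀ (σ : Equiv.Perm (Fin p)) t, G p (t ∘ σ) ↔ G p t := by
    intro σ t
    refine ⟨fun h => ?_, hperm σ t⟩
    have := hperm σ⁻¹ _ h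
    have e : (t ∘ σ) ∘ (σ⁻¹ : Equiv.Perm (Fin p)) = t := by
      funext x; simp
    rwa [e] at this
  -- the submodule of boundaries
  let S : Submodule K ((Fin p → B) → K) :=
    { carrier := {c | rCh G p c ∧ ∃ g : (Fin (p + 1) → B) → K, rCh G (p + 1) g ∧
        ∀ t, G p t → dd M g t = c t}
      add_mem' := by
        rintro c c' ⟨⟨a1, a2⟩, g, ⟨a3, a4⟩, a5⟩ ⟨⟨b1, b2⟩, g', ⟨b3, b4⟩, b5⟩
        refine ⟨⟨a1.add b1, fun t ht => ?_⟩, fun u => g u + g' u, ⟨a3.add b3, fun t ht => ?_⟩,
          fun t ht => ?_⟩
        · by_contra hc
          apply ht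
          have e1 : c t = 0 := by by_contra h; exact hc (a2 t h)
          have e2 : c' t = 0 := by by_contra h; exact hc (b2 t h)
          simp [e1, e2]
        · by_contra hc
          apply ht
          have e1 : g t = 0 := by by_contra h; exact hc (a4 t h)
          have e2 : g' t = 0 := by by_contra h; exact hc (b4 t h)
          simp [e1, e2]
        · have := a5 t ht
          have := b5 t ht
          simp only [dd, Finset.sum_add_distrib, Pi.add_apply] at *
          rw [a5 t ht, b5 t ht]
      zero_mem' := by
        refine ⟨⟨Alt.zero, fun t ht => absurd rfl ht⟩, fun _ => 0,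
          ⟨Alt.zero, fun t ht => absurd rfl ht⟩, fun t _ => by simp [dd]⟩
      smul_mem' := by
        rintro a c ⟨⟨a1, a2⟩, g, ⟨a3, a4⟩, a5⟩
        refine ⟨⟨a1.smul a, fun t ht => ?_⟩, fun u => a * g u, ⟨a3.smul a, fun t ht => ?_⟩,
          fun t ht => ?_⟩
        · exact a2 t (right_ne_zero_of_mul ht)
        · exact a4 t (right_ne_zero_of_mul ht)
        · have := a5 t ht
          simp only [dd, ← Finset.mul_sum, Pi.smul_apply, smul_eq_mul] at *
          rw [this] }
  intro c0 hc0 _
  by_contra hcon
  have hnot : c0 ∉ S := by
    rintro ⟨_, g, hg, hg2⟩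
    exact hcon ⟨g, hg, hg2⟩
  obtain ⟨f, hf0, hfS⟩ := Submodule.exists_le_ker_of_notMem hnot
  -- basic chains
  let e' : (Fin j → B) → (Fin p → B) → K := fun s t =>
    if G p t then eps K m (Sum.elim t s) else 0
  have he'G : ∀ s t, e' s t ≠ 0 → G p t := by
    intro s t h
    by_contra hc
    exact h (by simp [e', hc])
  have he'eps : ∀ s t, e' s t ≠ 0 → eps K m (Sum.elim t s) ≠ 0 := by
    intro s t h hc
    exact h (by simp [e', hc])
  have he'alt : ∀ s, Alt p (e' s) := by
    intro s σ t
    simp only [e', hpermiff]
    split_ifs with h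
    · have : Sum.elim (t ∘ σ) s = Sum.elim t s ∘ (Equiv.Perm.sumCongr σ (1 : Equiv.Perm (Fin j))) := by
        funext x
        rcases x with i | i <;> simp
      rw [this, eps_comp hm, Equiv.Perm.sign_sumCongr]
      simp
    · simp
  -- the dual cycle
  let κ : (Fin j → B) → K := fun s => f (e' s)
  have hκ : ∀ s, κ s = 0 := by
    apply hno κ
    · constructor
      · intro σ s
        have : e' (s ∘ σ) = ((Equiv.Perm.sign σ : ℤ) : K) • e' s := by
          funext t
          simp only [e', Pi.smul_apply, smul_eq_mul]
          split_ifs with h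
          · have : Sum.elim t (s ∘ σ) =
                Sum.elim t s ∘ (Equiv.Perm.sumCongr (1 : Equiv.Perm (Fin p)) σ) := by
              funext x
              rcases x with i | i <;> simp
            rw [this, eps_comp hm, Equiv.Perm.sign_sumCongr]
            simp
          · simp
        simp only [κ, this, map_smul, smul_eq_mul]
      · intro s hs
        have hne : e' s ≠ 0 := by
          intro h
          exact hs (by simp [κ, h])
        obtain ⟨t, ht⟩ := Function.ne_iff.1 hne
        obtain ⟨σ, hσ⟩ := eps_ne (he'eps s t ht)
        refine h1 t s ?_ ?_ (he'G s t ht)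
        · rw [hσ]; exact hm.comp σ.injective
        · intro x; rw [hσ]; exact hmM _
    · rcases j with _ | j'
      · trivial
      · intro s hs
        let g : (Fin (p + 1) → B) → K := fun u => eps K m (Sum.elim u s ∘ (shf p j').symm)
        have hg : rCh G (p + 1) g := by
          constructor
          · intro σ u
            have : Sum.elim (u ∘ σ) s ∘ (shf p j').symm =
                (Sum.elim u s ∘ (shf p j').symm) ∘
                  ((shf p j').permCongr (Equiv.Perm.sumCongr σ (1 : Equiv.Perm (Fin j')))) := by
              funext x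
              simp only [Function.comp_apply, Equiv.permCongr_apply, Equiv.symm_apply_apply]
              rcases (shf p j').symm x with i | i <;> simp
            simp only [g]
            rw [this, eps_comp hm, Equiv.Perm.sign_permCongr, Equiv.Perm.sign_sumCongr]
            simp
          · intro u hu
            obtain ⟨σ, hσ⟩ := eps_ne hu
            have h3 : Sum.elim u s = m ∘ (σ ∘ (shf p j')) := by
              funext x
              have := congrFun hσ (shf p j' x)
              simpa using this
            refine h2 j' rfl u s ?_ ?_ hs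
            · rw [h3]; exact hm.comp (σ.injective.comp (shf p j').injective)
            · intro x; rw [h3]; exact hmM _
        have hsum : dd M κ s = f (∑ b ∈ M, e' (Fin.cons b s)) := by
          simp only [dd, κ, map_sum]
        have hfun : (∑ b ∈ M, e' (Fin.cons b s)) = fun t => if G p t then dd M g t else 0 := by
          funext t
          rw [Finset.sum_apply]
          simp only [e']
          split_ifs with h
          · simp only [dd, g]
            refine Finset.sum_congr rfl (fun b _ => ?_)
            rw [elim_shf]
          · simp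
        rw [hsum, hfun]
        have hmem : (fun t => if G p t then dd M g t else 0) ∈ S := by
          refine ⟨⟨?_, ?_⟩, g, hg, ?_⟩
          · intro σ t
            simp only [hpermiff]
            split_ifs with h
            · exact Alt.dd M hg.1 σ t
            · simp
          · intro t ht
            by_contra hc
            exact ht (by simp [hc])
          · intro t ht
            simp [ht]
        exact hfS hmem
  -- spanning
  have hspan : ∀ (N : ℕ) (c : (Fin p → B) → K), rCh G p c →
      ((Fintype.piFinset fun _ : Fin p => M').filter (fun t => c t ≠ 0)).card ≤ N →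
      f c = 0 := by
    intro N
    induction N with
    | zero =>
      intro c hc hN
      have h3 : ∀ t, c t = 0 := by
        intro t
        by_contra ht
        have : t ∈ (Fintype.piFinset fun _ : Fin p => M').filter (fun t => c t ≠ 0) := by
          rw [Finset.mem_filter, Fintype.mem_piFinset]
          exact ⟨hG t (hc.2 t ht), ht⟩
        have := Finset.card_pos.2 ⟨t, this⟩
        omega
      have : c = 0 := funext h3
      rw [this, map_zero]
    | succ N ih =>
      intro c hc hN
      by_cases hz : c = 0
      · rw [hz, map_zero]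
      obtain ⟨t0, ht0⟩ := Function.ne_iff.1 hz
      have ht0 : c t0 ≠ 0 := ht0
      have hGt0 := hc.2 t0 ht0
      have hinj0 : Function.Injective t0 := by
        intro x y hxy
        by_contra hne
        exact ht0 (hc.1.eq_zero hne hxy)
      have hcomp : (M' \ univ.image t0).card = j := by
        rw [Finset.card_sdiff_of_subset, Finset.card_image_of_injective _ hinj0, hcard]
        · simp
        · intro b hb
          obtain ⟨i, _, rfl⟩ := Finset.mem_image.1 hb
          exact hG t0 hGt0 i
      let es := (Finset.equivFinOfCardEq hcomp).symm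
      let s0 : Fin j → B := fun i => (es i).1
      have hs0 : ∀ i, s0 i ∈ M' ∧ ∀ k, t0 k ≠ s0 i := by
        intro i
        have := (es i).2
        rw [Finset.mem_sdiff] at this
        refine ⟨this.1, fun k hk => this.2 ?_⟩
        exact Finset.mem_image.2 ⟨k, Finset.mem_univ _, hk⟩
      have hs0inj : Function.Injective s0 := fun x y h => es.injective (Subtype.ext h)
      have hinj : Function.Injective (Sum.elim t0 s0) := by
        rintro (x | x) (y | y) h
        · exact congrArg _ (hinj0 h)
        · exact absurd h ((hs0 y).2 x)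
        · exact absurd h.symm ((hs0 x).2 y)
        · exact congrArg _ (hs0inj h)
      have hval : ∀ x, Sum.elim t0 s0 x ∈ M' := by
        rintro (x | x)
        · exact hG t0 hGt0 x
        · exact (hs0 x).1
      obtain ⟨σ0, hσ0⟩ := exists_perm hm hMm hinj hval
      have heps0 : eps K m (Sum.elim t0 s0) ≠ 0 := by
        rw [hσ0, eps_apply hm]
        rcases Int.units_eq_one_or (Equiv.Perm.sign σ0) with h | h <;> simp [h]
      have he0 : e' s0 t0 = eps K m (Sum.elim t0 s0) := by simp [e', hGt0]
      have he0' : e' s0 t0 ≠ 0 := by rw [he0]; exact heps0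
      set a : K := c t0 / e' s0 t0 with ha
      let c1 : (Fin p → B) → K := fun t => c t - a * e' s0 t
      have hc1 : rCh G p c1 := by
        refine ⟨hc.1.sub ((he'alt s0).smul a), fun t ht => ?_⟩
        by_contra hcn
        apply ht
        have q1 : c t = 0 := by by_contra h; exact hcn (hc.2 t h)
        have q2 : e' s0 t = 0 := by by_contra h; exact hcn (he'G _ _ h)
        simp [c1, q1, q2]
      have hlt : ((Fintype.piFinset fun _ : Fin p => M').filter (fun t => c1 t ≠ 0)).card <
          ((Fintype.piFinset fun _ : Fin p => M').filter (fun t => c t ≠ 0)).card := by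
        apply Finset.card_lt_card
        rw [Finset.ssubset_iff_of_subset]
        · refine ⟨t0, ?_, ?_⟩
          · rw [Finset.mem_filter, Fintype.mem_piFinset]
            exact ⟨hG t0 hGt0, ht0⟩
          · rw [Finset.mem_filter]
            rintro ⟨_, h⟩
            apply h
            simp only [c1, ha]
            field_simp
            ring
        · intro t ht
          rw [Finset.mem_filter] at ht ⊢
          refine ⟨ht.1, fun hct => ht.2 ?_⟩
          have q2 : e' s0 t = 0 := by
            by_contra hne
            obtain ⟨σ, hσ⟩ := eps_ne (he'eps _ _ hne)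
            have hinjt : Function.Injective (Sum.elim t s0) := by
              rw [hσ]; exact hm.comp σ.injective
            have hk : ∀ i, ∃ k, t0 k = t i := by
              intro i
              have hti : t i ∈ M' := by
                have := congrFun hσ (Sum.inl i)
                simp only [Sum.elim_inl] at this
                rw [this]; exact hmM _
              obtain ⟨x, hx⟩ := hMm _ hti
              have hx2 : Sum.elim t0 s0 (σ0.symm x) = t i := by
                rw [hσ0]; simp [hx]
              rcases hy : σ0.symm x with k | k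
              · exact ⟨k, by rw [hy] at hx2; simpa using hx2⟩
              · exfalso
                rw [hy] at hx2
                have : Sum.elim t s0 (Sum.inr k) = Sum.elim t s0 (Sum.inl i) := by
                  simpa using hx2
                have := hinjt this
                simp at this
            choose ρ hρ using hk
            have hρinj : Function.Injective ρ := by
              intro x y hxy
              have h5 : t x = t y := by rw [← hρ x, ← hρ y, hxy]
              have h6 : Sum.elim t s0 (Sum.inl x) = Sum.elim t s0 (Sum.inl y) := by simpa using h5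
              exact Sum.inl_injective (hinjt h6)
            let ρ' : Equiv.Perm (Fin p) :=
              Equiv.ofBijective ρ (Finite.injective_iff_bijective.1 hρinj)
            have h7 : t = t0 ∘ ρ' := by
              funext i; exact (hρ i).symm
            have h8 := hc.1 ρ' t0
            rw [← h7, hct] at h8
            have h9 : ((Equiv.Perm.sign ρ' : ℤ) : K) ≠ 0 := by
              rcases Int.units_eq_one_or (Equiv.Perm.sign ρ') with h | h <;> simp [h]
            exact mul_ne_zero h9 ht0 h8.symm
          simp [c1, hct, q2]
      have h10 := ih c1 hc1 (by omega)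
      have h11 : c = c1 + a • e' s0 := by
        funext t
        simp [c1]
      rw [h11, map_add, map_smul, h10]
      have : f (e' s0) = 0 := hκ s0
      rw [this]; simp
  exact hf0 (hspan _ c0 hc0 le_rfl)

end Dual

theorem pr_Dual : S_Dual := by
  intro K _ _ n d p j w w' hn hd hcardM hww hno
  set M' := (Mo n d).filter (fun v => ∀ i, v ≠ Pi.single i d) with hM'
  have hsingle : Function.Injective (fun i : Fin n => (Pi.single i d : Fin n → ℕ)) := by
    intro i k h
    by_contra hne
    have := congrFun h i
    simp only [Pi.single_eq_same, Pi.single_eq_of_ne hne] at this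
    omega
  have hcard : M'.card = p + j := by
    have h1 : (Mo n d).filter (fun v => ¬ ∀ i, v ≠ Pi.single i d) =
        univ.image (fun i : Fin n => (Pi.single i d : Fin n → ℕ)) := by
      ext v
      simp only [Finset.mem_filter, Finset.mem_image, Finset.mem_univ, true_and, not_forall,
        not_not]
      constructor
      · rintro ⟨_, i, hi⟩
        exact ⟨i, hi.symm⟩
      · rintro ⟨i, rfl⟩
        refine ⟨?_, i, rfl⟩
        simp [Mo, Finset.mem_piAntidiag]
    have h2 := Finset.card_filter_add_card_filter_not (s := Mo n d)
      (fun v => ∀ i, v ≠ Pi.single i d)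
    rw [h1, Finset.card_image_of_injective _ hsingle, Finset.card_univ, Fintype.card_fin,
      ← hM'] at h2
    omega
  have hmemM : ∀ (q : ℕ) (W : Fin n → ℕ) (t : Fin q → (Fin n → ℕ)), vJ d W univ q t →
      ∀ i, t i ∈ M' := by
    intro q W t ht i
    rw [hM', Finset.mem_filter]
    exact ⟨ht.1.1 i, fun k => (ht.2 k (Finset.mem_univ _)).1 i⟩
  have hsumM : ∀ (q r : ℕ) (t : Fin q → (Fin n → ℕ)) (s : Fin r → (Fin n → ℕ)),
      q + r = p + j → Function.Injective (Sum.elim t s) → (∀ x, Sum.elim t s x ∈ M') →
      ∀ a, (∑ i, t i) a + (∑ i, s i) a = ∑ v ∈ M', v a := by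
    intro q r t s hqr hinj hval a
    have himg : univ.image (Sum.elim t s) = M' := by
      apply Finset.eq_of_subset_of_card_le
      · intro v hv
        obtain ⟨x, _, rfl⟩ := Finset.mem_image.1 hv
        exact hval x
      · rw [Finset.card_image_of_injective _ hinj]
        simp [hcard, hqr]
    rw [← himg, Finset.sum_image (fun x _ y _ h => hinj h), Fintype.sum_sum_type]
    simp [Finset.sum_apply]
  have hchar : ∀ (q : ℕ) (W : Fin n → ℕ) (t : Fin q → (Fin n → ℕ)), (∀ i, t i ∈ M') →
      (vJ d W univ q t ↔ ∀ a, (∑ i, t i) a ≤ W a ∧ W a < d + (∑ i, t i) a) := by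
    intro q W t ht
    constructor
    · intro h a
      refine ⟨h.1.2 a, ?_⟩
      have := (h.2 a (Finset.mem_univ _)).2
      simpa [Finset.sum_apply] using this
    · intro h
      refine ⟨⟨fun i => (Finset.mem_filter.1 (ht i)).1, fun a => (h a).1⟩, fun a _ => ⟨fun i => (Finset.mem_filter.1 (ht i)).2 a, ?_⟩⟩
      have := (h a).2
      simpa [Finset.sum_apply] using this
  apply Dual.abstract (Mo n d) M' (vJ d w univ) (vJ d w' univ) p j hcard
  · intro t ht
    exact hmemM p w t ht
  · intro σ t ht
    have htM := hmemM p w t ht
    rw [hchar p w (t ∘ σ) (fun i => htM (σ i))]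
    rw [hchar p w _ htM] at ht
    have : ∑ i, (t ∘ σ) i = ∑ i, t i := Equiv.sum_comp σ t
    rw [this]
    exact ht
  · intro t s hinj hval ht
    have htM := hmemM p w t ht
    rw [hchar p w _ htM] at ht
    rw [hchar j w' s (fun i => hval (Sum.inr i))]
    intro a
    have e1 := hsumM p j t s rfl hinj hval a
    have e2 := hww a
    have e3 := ht a
    omega
  · intro j' hj u s hinj hval hs
    have hsM : ∀ i, s i ∈ M' := fun i => hval (Sum.inr i)
    rw [hchar j' w' s hsM] at hs
    rw [hchar (p + 1) w u (fun i => hval (Sum.inl i))]
    intro a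
    have e1 := hsumM (p + 1) j' u s (by omega) hinj hval a
    have e2 := hww a
    have e3 := hs a
    omega
  · exact hno

end Pool.Agent.Work.MP_1233f5_ag.V
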