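import Pool.Agent.Work.MP_1233f5_ag.V.Stmts

set_option autoImplicit false

namespace Pool.Agent.Work.MP_1233f5_ag.V

open Finset

namespace Green

variable {K : Type} [Field K]

theorem mem_Mo {n d : ℕ} {v : Fin n → ℕ} : v ∈ Mo n d ↔ ∑ a, v a = d := by
  simp [Mo, Finset.mem_piAntidiag]

/-- the cycle condition holds everywhere. -/
theorem dd_zero {n d p : ℕ} {w : Fin n → ℕ} {c : (Fin (p + 1) → (Fin n → ℕ)) → K}
    (hc : rCh (vw d w) (p + 1) c) (hz : rcyc (Mo n d) (vw d w) (p + 1) c)
    (t : Fin p → (Fin n → ℕ)) : dd (Mo n d) c t = 0 := by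
  by_cases ht : vw d w p t
  · exact hz t ht
  · simp only [dd]
    refine Finset.sum_eq_zero (fun b _ => ?_)
    by_contra h
    have h1 := hc.2 _ h
    apply ht
    refine ⟨fun i => ?_, ?_⟩
    · have := h1.1 i.succ
      simpa using this
    · have h2 := h1.2
      rw [Fin.sum_univ_succ] at h2
      simp only [Fin.cons_zero, Fin.cons_succ] at h2
      exact le_trans (by intro a; simp) h2

theorem removeNth_update {p : ℕ} {B : Type} (s : Fin (p + 1) → B) (i : Fin (p + 1)) (v : B) :
    i.removeNth (Function.update s i v) = i.removeNth s := by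
  funext k
  simp [Fin.removeNth]

theorem sum_update {n d p : ℕ} {w : Fin n → ℕ} {c : (Fin (p + 1) → (Fin n → ℕ)) → K}
    (hc : rCh (vw d w) (p + 1) c) (hz : rcyc (Mo n d) (vw d w) (p + 1) c)
    (s : Fin (p + 1) → (Fin n → ℕ)) (i : Fin (p + 1)) :
    ∑ v ∈ Mo n d, c (Function.update s i v) = 0 := by
  have h1 : ∀ v, c (Function.update s i v) = (-1) ^ (i : ℕ) * c (Fin.cons v (i.removeNth s)) := by
    intro v
    have h2 := hc.1.cons_removeNth (Function.update s i v) i
    rw [Function.update_self, removeNth_update] at h2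
    rw [h2, ← mul_assoc, ← pow_add, ← two_mul, pow_mul]
    simp
  simp only [h1]
  rw [← Finset.mul_sum]
  have := dd_zero hc hz (i.removeNth s)
  simp only [dd] at this
  rw [this, mul_zero]

section main

variable {n : ℕ} {L : Type} [Fintype L]

/-- exponents -/
noncomputable def E (c : L → (Fin n → ℕ)) : (L × Fin n) →₀ ℕ :=
  Finsupp.equivFunOnFinite.symm (fun x => c x.1 x.2)

theorem E_apply (c : L → (Fin n → ℕ)) (l : L) (i : Fin n) : E c (l, i) = c l i := rfl

theorem E_inj {c c' : L → (Fin n → ℕ)} (h : E c = E c') : c = c' := by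
  funext l i
  have := DFunLike.congr_fun h (l, i)
  simpa [E_apply] using this

theorem E_add (c c' : L → (Fin n → ℕ)) : E c + E c' = E (c + c') := by
  ext ⟨l, i⟩; simp [E_apply]

theorem E_sum {ι : Type} (s : Finset ι) (c : ι → L → (Fin n → ℕ)) :
    ∑ x ∈ s, E (c x) = E (∑ x ∈ s, c x) := by
  classical
  induction s using Finset.induction_on with
  | empty => ext ⟨l, i⟩; simp [E_apply]
  | insert a s ha ih => rw [Finset.sum_insert ha, Finset.sum_insert ha, ih, E_add]

end main

/-- the determinant of the matrix of monomials. -/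
theorem det_ne {n T : ℕ} : (Matrix.of (fun (l a : ↥(Mo n T)) =>
    (MvPolynomial.monomial (E (Pi.single l a.1 : ↥(Mo n T) → (Fin n → ℕ))) (1 : K)
      : MvPolynomial (↥(Mo n T) × Fin n) K))).det ≠ 0 := by
  intro h
  have h1 := congrArg (MvPolynomial.coeff (E (fun l : ↥(Mo n T) => l.1))) h
  rw [Matrix.det_apply, MvPolynomial.coeff_sum, MvPolynomial.coeff_zero] at h1
  have h2 : ∀ σ : Equiv.Perm ↥(Mo n T),
      MvPolynomial.coeff (E (fun l : ↥(Mo n T) => l.1)) (Equiv.Perm.sign σ • ∏ i, (Matrix.of
        (fun (l a : ↥(Mo n T)) => (MvPolynomial.monomial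
          (E (Pi.single l a.1 : ↥(Mo n T) → (Fin n → ℕ))) (1 : K)
            : MvPolynomial (↥(Mo n T) × Fin n) K))) (σ i) i) = if σ = 1 then 1 else 0 := by
    intro σ
    simp only [Matrix.of_apply]
    have h3 : (∏ i : ↥(Mo n T), (MvPolynomial.monomial
          (E (Pi.single (σ i) i.1 : ↥(Mo n T) → (Fin n → ℕ))) (1 : K)
            : MvPolynomial (↥(Mo n T) × Fin n) K)) =
        MvPolynomial.monomial (E (fun l => (σ⁻¹ l).1)) 1 := by
      have h4 : (∑ x, Pi.single (σ x) x.1 : ↥(Mo n T) → (Fin n → ℕ)) =
          fun l => (σ⁻¹ l).1 := by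
        funext l
        rw [Finset.sum_apply]
        rw [Finset.sum_eq_single (σ⁻¹ l)]
        · simp
        · intro b _ hb
          rw [Pi.single_apply, if_neg]
          intro h; apply hb; rw [h]; simp
        · intro h; exact absurd (Finset.mem_univ _) h
      rw [← MvPolynomial.monomial_sum_one, E_sum, h4]
    rw [h3]
    by_cases hs : σ = 1
    · subst hs
      simp [MvPolynomial.coeff_monomial]
    · rw [if_neg hs]
      have h4 : E (fun l => (σ⁻¹ l).1) ≠ E (fun l : ↥(Mo n T) => l.1) := by
        intro h5
        apply hs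
        have h6 := E_inj h5
        have h7 : σ⁻¹ = 1 := by
          ext l
          have := congrFun h6 l
          simp only [Equiv.Perm.coe_one, id_eq]
          rw [this]
        exact inv_eq_one.mp h7
      rcases Int.units_eq_one_or (Equiv.Perm.sign σ) with h8 | h8 <;> rw [h8]
      · rw [one_smul, MvPolynomial.coeff_monomial, if_neg h4]
      · rw [Units.neg_smul, one_smul, MvPolynomial.coeff_neg, MvPolynomial.coeff_monomial,
          if_neg h4, neg_zero]
  rw [Finset.sum_congr rfl (fun σ _ => h2 σ)] at h1
  simp at h1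

section main2

variable {n d T p : ℕ} {w : Fin n → ℕ} {c : (Fin (p + 1) → (Fin n → ℕ)) → K}
  {L : Type} [Fintype L] [DecidableEq L] (e : L ↪ Fin (p + 1)) (t0 : Fin (p + 1) → (Fin n → ℕ))

/-- replace the entries at the places in the range of `e`. -/
noncomputable def ext (x : L → (Fin n → ℕ)) : Fin (p + 1) → (Fin n → ℕ) :=
  Function.extend e x t0

omit [DecidableEq L] in
theorem ext_self : ext e t0 (fun l => t0 (e l)) = t0 := by
  funext i
  by_cases h : ∃ l, e l = i
  · obtain ⟨l, rfl⟩ := h
    exact e.injective.extend_apply _ _ _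
  · exact Function.extend_apply' _ _ _ h

theorem ext_update (x : L → (Fin n → ℕ)) (l : L) (v : Fin n → ℕ) :
    ext e t0 (Function.update x l v) = Function.update (ext e t0 x) (e l) v := by
  funext i
  by_cases h : ∃ l, e l = i
  · obtain ⟨l', rfl⟩ := h
    rw [ext, e.injective.extend_apply]
    by_cases h' : l' = l
    · subst h'; simp
    · rw [Function.update_of_ne h', Function.update_of_ne (fun h => h' (e.injective h)), ext,
        e.injective.extend_apply]
  · rw [ext, Function.extend_apply' _ _ _ h, Function.update_of_ne, ext,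
      Function.extend_apply' _ _ _ h]
    rintro rfl; exact h ⟨l, rfl⟩

open Classical in
/-- sum of the entries not in the range. -/
noncomputable def tau : Fin n → ℕ := ∑ i ∈ univ.filter (fun i => ¬ ∃ l, e l = i), t0 i

omit [DecidableEq L] in
theorem sum_ext (x : L → (Fin n → ℕ)) : ∑ i, ext e t0 x i = ∑ l, x l + tau e t0 := by
  classical
  rw [← Finset.sum_filter_add_sum_filter_not univ (fun i => ∃ l, e l = i)]
  congr 1
  · have h1 : univ.filter (fun i => ∃ l, e l = i) = univ.map e := by
      ext i; simp
    rw [h1, Finset.sum_map]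
    exact Finset.sum_congr rfl (fun l _ => e.injective.extend_apply _ _ _)
  · unfold tau
    refine Finset.sum_congr rfl (fun i hi => ?_)
    rw [Finset.mem_filter] at hi
    exact Function.extend_apply' _ _ _ hi.2

/-- the degree of the complement. -/
theorem deg {T : ℕ} (hw : ∑ a, w a = (p + 1) * d + T) {t : Fin (p + 1) → (Fin n → ℕ)}
    (ht : vw d w (p + 1) t) : w - ∑ i, t i ∈ Mo n T := by
  rw [mem_Mo]
  have h1 : ∑ a, (w - ∑ i, t i) a = ∑ a, w a - ∑ a, (∑ i, t i) a := by
    rw [← Finset.sum_tsub_distrib]
    · rfl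
    · intro a _; exact ht.2 a
  have h2 : ∑ a, (∑ i, t i) a = (p + 1) * d := by
    simp only [Finset.sum_apply]
    rw [Finset.sum_comm]
    have : ∀ i ∈ (univ : Finset (Fin (p + 1))), ∑ a, t i a = d := fun i _ => mem_Mo.mp (ht.1 i)
    rw [Finset.sum_congr rfl this]
    simp
  rw [h1, h2, hw]
  omega

/-- the generating polynomials. -/
noncomputable def Wp (c : (Fin (p + 1) → (Fin n → ℕ)) → K) (d : ℕ) (w : Fin n → ℕ)
    (a : Fin n → ℕ) : MvPolynomial (L × Fin n) K :=
  ∑ x ∈ Fintype.piFinset (fun _ : L => Mo n d),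
    if w - ∑ i, ext e t0 x i = a then MvPolynomial.monomial (E x) (c (ext e t0 x)) else 0

theorem Wp_coeff (x0 : L → (Fin n → ℕ)) (h0 : ∀ l, x0 l ∈ Mo n d) (a : Fin n → ℕ)
    (ha : w - ∑ i, ext e t0 x0 i = a) :
    MvPolynomial.coeff (E x0) (Wp e t0 c d w a) = c (ext e t0 x0) := by
  rw [Wp, MvPolynomial.coeff_sum, Finset.sum_eq_single x0]
  · rw [if_pos ha, MvPolynomial.coeff_monomial, if_pos rfl]
  · intro x _ hx
    split_ifs
    · rw [MvPolynomial.coeff_monomial, if_neg]
      intro h; exact hx (E_inj h)
    · simp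
  · intro h
    exact absurd (Fintype.mem_piFinset.mpr h0) h

theorem Wp_sum (hc : rCh (vw d w) (p + 1) c) (hz : rcyc (Mo n d) (vw d w) (p + 1) c)
    (hw : ∑ a, w a = (p + 1) * d + T) (l : L) :
    ∑ a ∈ Mo n T, MvPolynomial.monomial (E (Pi.single l a : L → (Fin n → ℕ))) (1 : K) *
      Wp e t0 c d w a = 0 := by
  -- expand
  have h1 : ∑ a ∈ Mo n T, MvPolynomial.monomial (E (Pi.single l a : L → (Fin n → ℕ))) (1 : K) *
      Wp e t0 c d w a = ∑ x ∈ Fintype.piFinset (fun _ : L => Mo n d),
        MvPolynomial.monomial (E (Pi.single l (w - ∑ i, ext e t0 x i) + x : L → (Fin n → ℕ)))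
          (c (ext e t0 x)) := by
    simp only [Wp, Finset.mul_sum]
    rw [Finset.sum_comm]
    refine Finset.sum_congr rfl (fun x _ => ?_)
    by_cases hx : c (ext e t0 x) = 0
    · rw [hx]
      simp
    · rw [Finset.sum_eq_single (w - ∑ i, ext e t0 x i)]
      · rw [if_pos rfl, MvPolynomial.monomial_mul, one_mul, E_add]
      · intro b _ hb
        rw [if_neg (fun h => hb h.symm), mul_zero]
      · intro h
        exact absurd (deg hw (hc.2 _ hx)) h
  rw [h1]
  -- group by the entries different from `l`
  rw [← Finset.sum_fiberwise_of_maps_to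
    (g := fun x : L → (Fin n → ℕ) => Function.update x l 0)
    (t := (Fintype.piFinset (fun _ : L => Mo n d)).image (fun x => Function.update x l 0))
    (fun x hx => Finset.mem_image_of_mem _ hx)]
  refine Finset.sum_eq_zero (fun r hr => ?_)
  rw [Finset.mem_image] at hr
  obtain ⟨x1, hx1, rfl⟩ := hr
  rw [Fintype.mem_piFinset] at hx1
  have h2 : ∑ x ∈ (Fintype.piFinset (fun _ : L => Mo n d)).filter
      (fun x => Function.update x l 0 = Function.update x1 l 0),
        MvPolynomial.monomial (E (Pi.single l (w - ∑ i, ext e t0 x i) + x : L → (Fin n → ℕ)))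
          (c (ext e t0 x)) = ∑ v ∈ Mo n d,
        MvPolynomial.monomial (E (Pi.single l (w - ∑ i, ext e t0 (Function.update x1 l v) i) +
          Function.update x1 l v : L → (Fin n → ℕ))) (c (ext e t0 (Function.update x1 l v))) := by
    refine Finset.sum_bij' (fun x _ => x l) (fun v _ => Function.update x1 l v) ?_ ?_ ?_ ?_ ?_
    · intro x hx
      rw [Finset.mem_filter, Fintype.mem_piFinset] at hx
      exact hx.1 l
    · intro v hv
      rw [Finset.mem_filter, Fintype.mem_piFinset]
      refine ⟨fun l' => ?_, by simp⟩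
      by_cases h : l' = l
      · subst h; simpa using hv
      · rw [Function.update_of_ne h]; exact hx1 l'
    · intro x hx
      rw [Finset.mem_filter] at hx
      funext l'
      by_cases h : l' = l
      · subst h; simp
      · rw [Function.update_of_ne h]
        have := congrFun hx.2 l'
        rw [Function.update_of_ne h, Function.update_of_ne h] at this
        exact this.symm
    · intro v _; simp
    · intro x hx
      rw [Finset.mem_filter] at hx
      have h3 : Function.update x1 l (x l) = x := by
        funext l'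
        by_cases h : l' = l
        · subst h; simp
        · rw [Function.update_of_ne h]
          have := congrFun hx.2 l'
          rw [Function.update_of_ne h, Function.update_of_ne h] at this
          exact this.symm
      rw [h3]
  rw [h2]
  -- the exponent does not depend on `v`
  set R : Fin n → ℕ := ∑ l' ∈ univ.erase l, x1 l' + tau e t0 with hR
  have h4 : ∀ v, ∑ i, ext e t0 (Function.update x1 l v) i = v + R := by
    intro v
    rw [sum_ext, ← Finset.add_sum_erase _ _ (Finset.mem_univ l), Function.update_self, hR,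
      add_assoc]
    congr 2
    refine Finset.sum_congr rfl (fun l' hl' => ?_)
    rw [Function.update_of_ne (Finset.ne_of_mem_erase hl')]
  have h5 : ∀ v ∈ Mo n d, MvPolynomial.monomial
      (E (Pi.single l (w - ∑ i, ext e t0 (Function.update x1 l v) i) +
          Function.update x1 l v : L → (Fin n → ℕ))) (c (ext e t0 (Function.update x1 l v))) =
      MvPolynomial.monomial (E (Function.update x1 l (w - R)))
        (c (ext e t0 (Function.update x1 l v))) := by
    intro v _
    by_cases hx : c (ext e t0 (Function.update x1 l v)) = 0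
    · rw [hx]; simp
    · have h6 := (hc.2 _ hx).2
      rw [h4] at h6 ⊢
      congr 2
      refine congrArg E ?_
      funext l' a
      by_cases h : l' = l
      · subst h
        have := h6 a
        simp only [Pi.add_apply, Pi.single_eq_same, Function.update_self, Pi.sub_apply] at this ⊢
        omega
      · simp [Function.update_of_ne h, Pi.single_apply, h]
  rw [Finset.sum_congr rfl h5, ← map_sum]
  have h7 : ∑ v ∈ Mo n d, c (ext e t0 (Function.update x1 l v)) = 0 := by
    simp only [ext_update]
    exact sum_update hc hz _ _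
  rw [h7, map_zero]

end main2

end Green

theorem pr_Green : S_Green := by
  intro K _ _ n d j T w _ hw hj c hc hz t
  classical
  by_contra hne
  have hcard : Fintype.card ↥(Mo n T) = (Mo n T).card := Fintype.card_coe _
  rcases j with _ | p
  · -- `j = 0`
    have h1 := (hc.2 _ hne).2
    have h2 : (Mo n T).Nonempty := by
      refine ⟨w, Green.mem_Mo.mpr ?_⟩
      rw [hw]; simp
    exact absurd (Nat.le_zero.mp hj) (Finset.card_ne_zero_of_mem h2.choose_spec)
  · obtain ⟨e⟩ : Nonempty (↥(Mo n T) ↪ Fin (p + 1)) :=
      Function.Embedding.nonempty_of_card_le (by rw [hcard, Fintype.card_fin]; exact hj)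
    have hdet := Green.det_ne (K := K) (n := n) (T := T)
    have hW : (fun a : ↥(Mo n T) => Green.Wp e t c d w a.1) = 0 := by
      apply Matrix.eq_zero_of_mulVec_eq_zero hdet
      funext l
      simp only [Matrix.mulVec, dotProduct, Matrix.of_apply, Pi.zero_apply]
      have := Green.Wp_sum (T := T) e t hc hz hw l
      rw [← Finset.sum_coe_sort] at this
      exact this
    have hd := Green.deg hw (hc.2 _ hne)
    have h1 := congrFun hW ⟨_, hd⟩
    simp only [Pi.zero_apply] at h1
    have h2 := Green.Wp_coeff (c := c) (w := w) (d := d) e t (fun l => t (e l))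
      (fun l => (hc.2 _ hne).1 (e l)) (w - ∑ i, t i) (by rw [Green.ext_self])
    rw [h1, Green.ext_self] at h2
    exact hne (by rw [← h2]; simp)

end Pool.Agent.Work.MP_1233f5_ag.V
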