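import Pool.Agent.Work.MP_1233f5_ag.V.Stmts

/-!
# Item TransT: fibre-preserving permutations act transitively on matchings of given types
-/

namespace Pool.Agent.Work.MP_1233f5_ag.V

open Finset

namespace TransT

/-- index of the block which contains the point -/
noncomputable def blk {α : Type} {p : ℕ} (t : Fin p → Finset α) (a : α) : Option (Fin p) :=
  open Classical in if h : ∃ i, a ∈ t i then some h.choose else none

theorem blk_eq {α : Type} {p : ℕ} {t : Fin p → Finset α}
    (ht : ∀ i j, i ≠ j → Disjoint (t i) (t j)) (a : α) (i : Fin p) :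
    blk t a = some i ↔ a ∈ t i := by
  unfold blk
  constructor
  · intro h
    split_ifs at h with h1
    have h2 := h1.choose_spec
    rw [Option.some.inj h] at h2
    exact h2
  · intro h
    have h1 : ∃ i, a ∈ t i := ⟨i, h⟩
    rw [dif_pos h1]
    congr 1
    by_contra h2
    exact Finset.disjoint_left.1 (ht _ _ h2) h1.choose_spec h

theorem card_some {α : Type} [Fintype α] [DecidableEq α] {n p : ℕ} (π : α → Fin n)
    {t : Fin p → Finset α} (ht : ∀ i j, i ≠ j → Disjoint (t i) (t j)) (j : Fin n) (i : Fin p) :
    ((univ.filter fun a => π a = j).filter fun a => blk t a = some i).card = tyv π (t i) j := by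
  unfold tyv
  congr 1
  ext a
  simp only [Finset.mem_filter, Finset.mem_univ, true_and, blk_eq ht]
  tauto

theorem card_total {α : Type} [Fintype α] [DecidableEq α] {n p : ℕ} (π : α → Fin n)
    {t : Fin p → Finset α} (ht : ∀ i j, i ≠ j → Disjoint (t i) (t j)) (j : Fin n) :
    (univ.filter fun a => π a = j).card =
      ((univ.filter fun a => π a = j).filter fun a => blk t a = none).card +
        ∑ i, tyv π (t i) j := by
  rw [Finset.card_eq_sum_card_fiberwise (f := blk t) (t := univ) (fun _ _ => Finset.mem_univ _),
    Fintype.sum_option]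
  congr 1
  exact Finset.sum_congr rfl fun i _ => card_some π ht j i

theorem card_eq {α : Type} [Fintype α] [DecidableEq α] {n p : ℕ} (π : α → Fin n)
    {t t' : Fin p → Finset α} (ht : ∀ i j, i ≠ j → Disjoint (t i) (t j))
    (ht' : ∀ i j, i ≠ j → Disjoint (t' i) (t' j)) (h : ∀ i, tyv π (t i) = tyv π (t' i))
    (j : Fin n) (o : Option (Fin p)) :
    ((univ.filter fun a => π a = j).filter fun a => blk t a = o).card =
      ((univ.filter fun a => π a = j).filter fun a => blk t' a = o).card := by
  cases o with
  | some i => rw [card_some π ht, card_some π ht', h]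
  | none =>
    have h1 := card_total π ht j
    have h2 := card_total π ht' j
    have h3 : ∑ i, tyv π (t i) j = ∑ i, tyv π (t' i) j :=
      Finset.sum_congr rfl fun i _ => by rw [h i]
    omega

end TransT

open TransT in
theorem pr_TransT : S_TransT := by
  classical
  intro α _ _ n d p π t t' ht ht' h
  let f : α → Fin n × Option (Fin p) := fun a => (π a, blk t a)
  let f' : α → Fin n × Option (Fin p) := fun a => (π a, blk t' a)
  have hcard : ∀ c, Fintype.card {a // f a = c} = Fintype.card {b // f' b = c} := by
    rintro ⟨j, o⟩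
    rw [Fintype.card_subtype, Fintype.card_subtype]
    have h1 := card_eq π ht.2 ht'.2 h j o
    rw [Finset.filter_filter, Finset.filter_filter] at h1
    simp only [f, f', Prod.mk.injEq]
    exact h1
  let e : ∀ c, {a // f a = c} ≃ {b // f' b = c} := fun c => Fintype.equivOfCardEq (hcard c)
  let σ : Equiv.Perm α := Equiv.ofFiberEquiv e
  have hσ : ∀ a, f' (σ a) = f a := fun a => Equiv.ofFiberEquiv_map e a
  refine ⟨σ, fun a => congrArg Prod.fst (hσ a), fun i => ?_⟩
  ext b
  rw [Finset.mem_map_equiv, ← blk_eq ht.2, ← blk_eq ht'.2]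
  have h2 : blk t' (σ (σ.symm b)) = blk t (σ.symm b) := congrArg Prod.snd (hσ (σ.symm b))
  rw [Equiv.apply_symm_apply] at h2
  rw [h2]

end Pool.Agent.Work.MP_1233f5_ag.V
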