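import Mathlib

/-! MP_1233f5_ag, base block V (captain helper98).  Multilinear / multigraded model of the Koszul
complexes of Veronese embeddings.  See note 1479. -/

set_option autoImplicit false

namespace Pool.Agent.Work.MP_1233f5_ag.V

open Finset

/-! ### tuples, alternating functions, differential -/

section tuples
variable {K : Type} [Field K] {B : Type}

/-- alternating functions on `p`-tuples. -/
def Alt (p : ℕ) (c : (Fin p → B) → K) : Prop :=
  ∀ (σ : Equiv.Perm (Fin p)) (t : Fin p → B), c (t ∘ σ) = ((Equiv.Perm.sign σ : ℤ) : K) * c t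

/-- differential (sum over the labels in `M`). -/
def dd (M : Finset B) {p : ℕ} (c : (Fin (p + 1) → B) → K) : (Fin p → B) → K :=
  fun t => ∑ b ∈ M, c (Fin.cons b t)

/-- exterior multiplication by the label `b`. -/
def wdg [DecidableEq B] (b : B) {p : ℕ} (c : (Fin p → B) → K) : (Fin (p + 1) → B) → K :=
  fun t => ∑ i : Fin (p + 1), if t i = b then (-1) ^ (i : ℕ) * c (i.removeNth t) else 0

/-- predicates on tuples of any length. -/
abbrev Pred (B : Type) := (p : ℕ) → (Fin p → B) → Prop

/-- `G`-chains: alternating functions supported on `G`. -/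
def rCh (G : Pred B) (p : ℕ) (c : (Fin p → B) → K) : Prop :=
  Alt p c ∧ ∀ t, c t ≠ 0 → G p t

/-- `G`-cycles. -/
def rcyc (M : Finset B) (G : Pred B) : (p : ℕ) → ((Fin p → B) → K) → Prop
  | 0, _ => True
  | p + 1, c => ∀ t : Fin p → B, G p t → dd M c t = 0

/-- vanishing of the homology at the spot `p`. -/
def rVan (K : Type) [Field K] (M : Finset B) (G : Pred B) (p : ℕ) : Prop :=
  ∀ c : (Fin p → B) → K, rCh G p c → rcyc M G p c →
    ∃ g : (Fin (p + 1) → B) → K, rCh G (p + 1) g ∧ ∀ t, G p t → dd M g t = c t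

/-- vanishing of the cycles at the spot `p`. -/
def rNo (K : Type) [Field K] (M : Finset B) (G : Pred B) (p : ℕ) : Prop :=
  ∀ c : (Fin p → B) → K, rCh G p c → rcyc M G p c → ∀ t, c t = 0

end tuples

/-! ### matchings -/

section matchings
variable {α : Type} [DecidableEq α]

/-- `p`-tuples of pairwise disjoint `d`-subsets of `P`. -/
def vm (d : ℕ) (P : Finset α) : Pred (Finset α) := fun _ t =>
  (∀ i, (t i).card = d ∧ t i ⊆ P) ∧ ∀ i j, i ≠ j → Disjoint (t i) (t j)

/-- matchings such that every point of `Q` is covered and no edge contains two points of `Q`. -/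
def vF (d : ℕ) (P Q : Finset α) : Pred (Finset α) := fun p t =>
  vm d P p t ∧ (∀ i, (t i ∩ Q).card ≤ 1) ∧ ∀ q ∈ Q, ∃ i, q ∈ t i

/-- matchings such that at most one point of `Q` is uncovered and no edge contains two points
of `Q`. -/
def vG (d : ℕ) (P Q : Finset α) : Pred (Finset α) := fun p t =>
  vm d P p t ∧ (∀ i, (t i ∩ Q).card ≤ 1) ∧
    ∀ q ∈ Q, ∀ q' ∈ Q, (∀ i, q ∉ t i) → (∀ i, q' ∉ t i) → q = q'

end matchings

/-- multilinear vanishing: on `p * d + T` points the homology at the spot `p` is zero. -/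
def ML (K : Type) [Field K] (d T p : ℕ) : Prop :=
  rVan K (univ : Finset (Finset (Fin (p * d + T)))) (vm d univ) p

/-! ### multigraded strands -/

/-- exponents of degree `d` in `n` variables. -/
def Mo (n d : ℕ) : Finset (Fin n → ℕ) := Finset.piAntidiag Finset.univ d

/-- tuples of monomials of degree `d` whose product divides `x ^ w`. -/
def vw {n : ℕ} (d : ℕ) (w : Fin n → ℕ) : Pred (Fin n → ℕ) := fun _ t =>
  (∀ i, t i ∈ Mo n d) ∧ ∑ i, t i ≤ w

/-- the same, modulo the powers `x_j ^ d`, `j ∈ J` (in both factors). -/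
def vJ {n : ℕ} (d : ℕ) (w : Fin n → ℕ) (J : Finset (Fin n)) : Pred (Fin n → ℕ) := fun p t =>
  vw d w p t ∧ ∀ j ∈ J, (∀ i, t i ≠ Pi.single j d) ∧ w j < d + ∑ i, t i j

end Pool.Agent.Work.MP_1233f5_ag.V
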